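import Pool.Agent.Y798.FC.Stm4
import Pool.Agent.Y798.FC.Link
import Pool.Agent.Y681.FC.Im
import Pool.Agent.Y37.FC.Taub

/-! Orders and mean values of twisted Euler products. -/

set_option autoImplicit false

namespace Pool.Agent.Y210.FC2

open MeasureTheory UnitAddTorus Filter Topology NumberField IsDedekindDomain
  Pool.Agent.W540.BE Pool.Agent.TH553.RS Pool.Agent.TH553.ST Pool.Agent.Y798.JL Pool.Agent.Y798.FC

section
variable {K : Type} [Field K] [NumberField K] {κ : Type} {n : ℕ}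

open Classical in
/-- the block matrices -/
noncomputable def bm (S : Finset κ) (β : HeightOneSpectrum (𝓞 K) → κ → ℂ)
    (A : HeightOneSpectrum (𝓞 K) → Matrix (Fin n) (Fin n) ℂ)
    (v : HeightOneSpectrum (𝓞 K)) : Matrix (Fin n × S) (Fin n × S) ℂ :=
  Matrix.blockDiagonal fun k : S => β v k • A v

variable {S : Finset κ} {β : HeightOneSpectrum (𝓞 K) → κ → ℂ} (hβ : ∀ v, ∀ k ∈ S, ‖β v k‖ = 1)
  {A : HeightOneSpectrum (𝓞 K) → Matrix (Fin n) (Fin n) ℂ}
  (hA : ∀ v, A v ∈ Matrix.unitaryGroup (Fin n) ℂ)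

open Classical in
include hβ hA in
theorem bm_mem (v : HeightOneSpectrum (𝓞 K)) :
    bm S β A v ∈ Matrix.unitaryGroup (Fin n × S) ℂ := by
  rw [Matrix.mem_unitaryGroup_iff, Matrix.star_eq_conjTranspose]
  have hA' := hA v
  rw [Matrix.mem_unitaryGroup_iff, Matrix.star_eq_conjTranspose] at hA'
  unfold bm
  rw [Matrix.blockDiagonal_conjTranspose, ← Matrix.blockDiagonal_mul, ← Matrix.blockDiagonal_one]
  congr 1
  funext k
  rw [Matrix.conjTranspose_smul, smul_mul_smul_comm, hA', RCLike.star_def, Complex.mul_conj,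
    Complex.normSq_eq_norm_sq, hβ v k k.2]
  simp

open Classical in
theorem bm_trace (v : HeightOneSpectrum (𝓞 K)) :
    (bm S β A v).trace = (∑ k ∈ S, β v k) * (A v).trace := by
  unfold bm
  rw [Matrix.trace_blockDiagonal, Finset.sum_mul]
  rw [← Finset.sum_coe_sort S (fun k => β v k * (A v).trace)]
  refine Finset.sum_congr rfl fun k _ => ?_
  rw [Matrix.trace_smul, smul_eq_mul]

open Classical in
theorem bm_LU (s : ℂ) : LU (bm S β A) s = eulerT S β A s := by
  unfold LU eulerT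
  refine tprod_congr fun v => ?_
  congr 1
  have h1 : (1 - (((nm K v : ℕ) : ℂ) ^ (-s)) • bm S β A v) =
      Matrix.blockDiagonal fun k : S =>
        1 - ((Ideal.absNorm v.asIdeal : ℂ) ^ (-s) * β v k) • A v := by
    unfold bm
    rw [← Matrix.blockDiagonal_one, ← Matrix.blockDiagonal_smul, ← Matrix.blockDiagonal_sub]
    congr 1
    funext k
    show 1 - (((nm K v : ℕ) : ℂ) ^ (-s)) • (β v k • A v) = _
    rw [smul_smul]
    rfl
  rw [h1, Matrix.det_blockDiagonal]
  exact Finset.prod_coe_sort S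
    (fun k => Matrix.det (1 - ((Ideal.absNorm v.asIdeal : ℂ) ^ (-s) * β v k) • A v))

include hβ hA in
/-- the order is the mean value -/
theorem pole {τ : ℝ} {Λ : ℂ → ℂ} (h1 : MeromorphicAt Λ (1 + τ * Complex.I))
    (h2 : ∀ᶠ s in 𝓝 ((1 : ℂ) + τ * Complex.I), 1 < s.re → Λ s = eulerT S β A s) :
    ∃ m : ℤ, meromorphicOrderAt Λ (1 + τ * Complex.I) = ((-m : ℤ) : WithTop ℤ) ∧
      Tendsto (cE fun v => (∑ k ∈ S, β v k) * ((A v).trace * ht τ v)) (𝓝[>] 0) (𝓝 (m : ℂ)) := by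
  classical
  have h2' : ∀ᶠ s in 𝓝 ((1 : ℂ) + τ * Complex.I), (1 : ℝ) < s.re → Λ s = LU (bm S β A) s := by
    filter_upwards [h2] with s hs h
    rw [bm_LU, hs h]
  obtain ⟨m, h3, h4⟩ := order_LU (bm_mem hβ hA) h1 h2'
  have h5 := Pool.Agent.Y681.FC.t K (Fin n × S) (bm S β A) (bm_mem hβ hA) τ Λ h1 h2'
  refine ⟨-m, by rw [neg_neg]; exact h3, ?_⟩
  have h6 := cE_of_qt (t := fun v => (bm S β A v).trace * ht τ v)
    (B := Fintype.card (Fin n × S)) (fun v => by
      rw [norm_mul, norm_ht, mul_one]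
      exact norm_tr (bm_mem hβ hA) v) (a := -(m : ℝ)) (b := 0) h4 h5
  have h7 : (((-(m : ℝ) : ℝ) : ℂ) + ((0 : ℝ) : ℂ) * Complex.I) = ((-m : ℤ) : ℂ) := by
    push_cast
    ring
  rw [h7] at h6
  have h8 : (fun v => (bm S β A v).trace * ht τ v) =
      fun v => (∑ k ∈ S, β v k) * ((A v).trace * ht τ v) := by
    funext v
    rw [bm_trace, mul_assoc]
  rwa [h8] at h6

end

theorem t : StmBlk := by
  intro K _ _ κ S β hβ n A hA
  classical
  refine ⟨?_, ?_⟩
  · rintro τ ⟨Λ, h1, h2⟩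
    obtain ⟨m, -, h4⟩ := pole hβ hA h1 h2
    exact ⟨m, h4⟩
  · intro h h0
    have h1 := Pool.Agent.Y37.FC.t_Taub K (Fin n × S) (bm S β A) (bm_mem hβ hA) 0 (fun τ => by
      obtain ⟨Λ, k1, k2⟩ := h τ
      obtain ⟨m, k3, k4⟩ := pole hβ hA k1 k2
      refine ⟨Λ, k1, ?_, ?_⟩
      · filter_upwards [k2] with s hs h
        rw [bm_LU, hs h]
      · have h5 := tendsto_nhds_unique k4 (h0 τ)
        have h6 : m = 0 := by exact_mod_cast h5
        rw [k3, h6]
        simp)
    have h8 : (fun v => (bm S β A v).trace) = fun v => (∑ k ∈ S, β v k) * (A v).trace := by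
      funext v
      exact bm_trace v
    rw [h8] at h1
    simpa using h1

end Pool.Agent.Y210.FC2
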